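import Pool.Agent.helper97.AS.Spec

/-! # Project AS, row GOA: a repeated factor of length `M ≤ n/2` at distance `p ≤ M` -/

set_option autoImplicit false

namespace Pool.Agent.helper97.AS

open Pool.Agent.helper20.LB (Step F IsSq Same Bd co)

theorem GOA (hEXT : EXT_stmt) (hGOO : GOO_stmt) (hPUR : PUR_stmt) (hROT : ROT_stmt)
    (hALT : ALT_stmt) (hALX : ALX_stmt) (hTRA : TRA_stmt) : GOA_stmt := by
  intro f x p M n hf hx hp hpM hn h2n hper
  have hM0 : 0 ≤ M := by linarith
  obtain ⟨g, hg, hgf⟩ := hEXT f x p M hf hp hM0 hper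
  have fin : Good g x p M → Cnt f 0 n ((M + 1) / 2).toNat := by
    intro hG
    exact hTRA f g x (x + p + M) n _ hx hn hgf (hGOO g p _ x M hg hM0 hG)
  by_cases h1 : M + 2 ≤ 2 * p
  · exact fin (hPUR g p _ x M hg hpM h1)
  · rcases hROT g p _ x M hg (by omega) with h2 | h2
    · exact fin h2
    · by_cases h3 : M % 4 ≠ 1 ∨ 3 ≤ p
      · exact fin (hALT g p _ x M hg (by linarith) h2 h3)
      · rw [not_or, not_not, not_le] at h3
        obtain ⟨h3, h4⟩ := h3
        have hp1 : p ≠ 1 := by
          intro e
          subst e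
          have e1 := hg.2.2 0
          have e2 := hg.2.2 (0 + 1)
          have e3 := h2 0
          have e4 : (0 : ℤ) + 1 + 1 = 0 + 2 := by norm_num
          rw [e4] at e2
          omega
        have hp2 : p = 2 := by omega
        subst hp2
        apply hALX f x M n hf hx (by linarith) h2n h3 (by omega)
        intro y hy1 hy2
        rw [← hgf y hy1 (by linarith), ← hgf (y + 2) (by linarith) (by linarith)]
        exact h2 y

end Pool.Agent.helper97.AS
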